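import Pool.Agent.H0.Pol.Defs2
import Pool.Agent.H0.Pol.Core2

set_option autoImplicit false
open Cardinal

namespace Pool.Agent.Results.MP_089608_lc.EtaAlephOne

open Pool.Agent.Pol

/-- If `l > ℵ₀`, `2^l = l⁺` and there is a coherent normal function `[l⁺]² → ω` (as under `□_l`,
`cf l = ω`), then `(κ over κ) → (κ l; κ ℵ₁)`, `κ = l⁺`, fails. -/
theorem result :
    ∀ l : Cardinal.{0}, ℵ₀ < l → (2 : Cardinal.{0}) ^ l = Order.succ l → CoherentNormal l →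
    ∀ α : Type, #α = Order.succ l →
    ∃ Δ : Set (α × α),
      (¬ ∃ H₁ H₂ : Set α, #H₁ = Order.succ l ∧ #H₂ = Order.succ l ∧
        ∀ x ∈ H₁, ∀ y ∈ H₂, (x, y) ∈ Δ) ∧
      (¬ ∃ H₁ H₂ : Set α, #H₁ = l ∧ #H₂ = Cardinal.aleph 1 ∧ ∀ x ∈ H₁, ∀ y ∈ H₂, (x, y) ∉ Δ) := by
  intro l hl h2 hd α hα
  obtain ⟨S, hS1, hS2⟩ := main2 hl h2 hd α hα
  refine ⟨{q | q.1 ∉ S q.2}, ?_, ?_⟩
  · rintro ⟨H₁, H₂, h1, h3, h4⟩
    obtain ⟨H, hH1, hH⟩ := (Cardinal.le_mk_iff_exists_subset (c := l) (s := H₁)).1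
      (by rw [h1]; exact (Order.lt_succ l).le)
    obtain ⟨a, ha, x, hx, hax⟩ := hS1 H₂ H h3 hH
    exact h4 x (hH1 hx) a ha hax
  · rintro ⟨H₁, H₂, h1, h3, h4⟩
    obtain ⟨a, ha, x, hx, hax⟩ := hS2 H₂ H₁ h3 h1
    exact h4 x hx a ha hax

end Pool.Agent.Results.MP_089608_lc.EtaAlephOne
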